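import Pool.Agent.Q276.HL.Stm

/-! Project HL (MP_a1107e_nt), job GDI: the invariants. -/

set_option autoImplicit false

namespace Pool.Agent.Q76.HL

open Pool.Agent.Q276.HL

theorem idI (x y A u₁ v₁ u₂ v₂ : ℤ) :
    iI (qA A x y u₁ v₁) (qB A x y u₁ v₁ u₂ v₂) (qC A x y u₁ v₁ u₂ v₂) (qB A x y u₂ v₂ u₁ v₁)
      (qA A x y u₂ v₂) = (u₁ * v₂ - u₂ * v₁) ^ 4 * (-4 * A) := by
  unfold iI qA qB qC
  ring

theorem idJ (x y A u₁ v₁ u₂ v₂ : ℤ) :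
    iJ (qA A x y u₁ v₁) (qB A x y u₁ v₁ u₂ v₂) (qC A x y u₁ v₁ u₂ v₂) (qB A x y u₂ v₂ u₁ v₁)
      (qA A x y u₂ v₂) = (u₁ * v₂ - u₂ * v₁) ^ 6 * (-4 * (y ^ 2 - x ^ 3 - A * x)) := by
  unfold iJ qA qB qC
  ring

theorem gdi : StmtGDI := by
  intro x y A B u₁ v₁ u₂ v₂ h hd
  have hB : B = y ^ 2 - x ^ 3 - A * x := by linear_combination -h
  rw [idI, idJ, hd, hB]
  constructor <;> ring

end Pool.Agent.Q76.HL
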